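import Mathlib
import Pool.Agent.J4.H38.BP.Defs

/-! Project BP, pieces B5 and B5' (helper45): bounds of the elementary products. -/

set_option autoImplicit false

namespace Pool.Agent.J4.H45.BP

open Finset Filter
open Pool.Agent.Y822
open Pool.Agent.J4.H38.SR
open Pool.Agent.J4.H38.BP
open Pool.Agent.H373R2.T7 (pz Vz mem_pz)
open Pool.Agent.H387R2.Uni (nuT Adm locT)

namespace B5

lemma fac_bd {y p : ℕ} (hp : p ∈ pz y) : 0 < 1 - 1 / (p : ℝ) ∧ 1 - 1 / (p : ℝ) ≤ 1 := by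
  have h2 : (2 : ℝ) ≤ p := by exact_mod_cast (mem_pz.1 hp).2.two_le
  have h3 : 1 / (p : ℝ) ≤ 1 / 2 := one_div_le_one_div_of_le (by norm_num) h2
  have h4 : 0 ≤ 1 / (p : ℝ) := by positivity
  constructor <;> linarith

lemma Vz_split {w y : ℕ} (hwy : w ≤ y) :
    Vz y = Vz w * ∏ p ∈ (pz y).filter (fun p => w < p), (1 - 1 / (p : ℝ)) := by
  unfold Vz
  rw [← prod_filter_mul_prod_filter_not (pz y) (fun p => w < p) (fun p : ℕ => 1 - 1 / (p : ℝ)),
    mul_comm]
  congr 1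
  refine prod_congr ?_ fun _ _ => rfl
  ext p
  simp only [mem_filter, mem_pz]
  constructor
  · rintro ⟨⟨h1, h2⟩, h3⟩
    exact ⟨not_lt.1 h3, h2⟩
  · rintro ⟨h1, h2⟩
    exact ⟨⟨h1.trans hwy, h2⟩, not_lt.2 h1⟩

lemma tel (m w y : ℕ) (hw : m < w) (hwy : w ≤ y) :
    ∑ n ∈ Ioc w y, (1 / (((n : ℝ) - m - 1) * ((n : ℝ) - m))) = 1 / ((w : ℝ) - m) - 1 / ((y : ℝ) - m) := by
  induction y, hwy using Nat.le_induction with
  | base => simp
  | succ y hy ih =>
    rw [← Finset.insert_Ioc_right_eq_Ioc_add_one hy, sum_insert (by simp), ih]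
    have h1 : (m : ℝ) + 1 ≤ w := by exact_mod_cast hw
    have h2 : (w : ℝ) ≤ y := by exact_mod_cast hy
    have h3 : (y : ℝ) - m ≠ 0 := by
      have : (0 : ℝ) < y - m := by linarith
      exact this.ne'
    have h4 : (y : ℝ) + 1 - m ≠ 0 := by
      have : (0 : ℝ) < y + 1 - m := by linarith
      exact this.ne'
    push_cast
    have h5 : (y : ℝ) + 1 - m - 1 = y - m := by ring
    rw [h5]
    field_simp
    ring

end B5

/-- **B5** (25 min) elementary products -/
theorem GB_bd (m : ℕ) : ∃ w₀ : ℕ, 2 ≤ w₀ ∧ ∀ w y : ℕ, w₀ ≤ w → w ≤ y →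
    1 / 2 * Vz y ≤ GB m w y ∧ GB m w y ≤ Vz y / Vz w ∧ GB m w y ≤ 1 := by
  refine ⟨3 * m + 2, by omega, fun w y hw hwy => ?_⟩
  have hwR : 3 * (m : ℝ) + 2 ≤ w := by exact_mod_cast hw
  have hm0 : (0 : ℝ) ≤ m := Nat.cast_nonneg m
  set S := (pz y).filter (fun p => w < p) with hS
  have hSp : ∀ p ∈ S, (w : ℝ) + 1 ≤ p := by
    intro p hp
    have := (mem_filter.1 hp).2
    exact_mod_cast this
  have hSV : ∏ p ∈ S, (1 - 1 / (p : ℝ)) = Vz y / Vz w := by
    rw [B5.Vz_split hwy, mul_div_cancel_left₀ _ (Vz_pos' w).ne']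
  have hb : ∀ p ∈ S, 0 < 1 - 1 / (p : ℝ) ∧ 1 - 1 / (p : ℝ) ≤ 1 := fun p hp =>
    B5.fac_bd (mem_filter.1 hp).1
  have hg : ∀ p ∈ S, 0 < 1 - 1 / ((p : ℝ) - m) ∧ 1 - 1 / ((p : ℝ) - m) ≤ 1 - 1 / (p : ℝ) := by
    intro p hp
    have h1 := hSp p hp
    have h2 : 1 / ((p : ℝ) - m) < 1 := by
      rw [div_lt_one (by linarith)]
      linarith
    have h3 : 1 / (p : ℝ) ≤ 1 / ((p : ℝ) - m) :=
      one_div_le_one_div_of_le (by linarith) (by linarith)
    constructor <;> linarith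
  have hup : GB m w y ≤ Vz y / Vz w := by
    rw [← hSV]
    exact prod_le_prod (fun p hp => (hg p hp).1.le) fun p hp => (hg p hp).2
  have hone : Vz y / Vz w ≤ 1 := by
    rw [← hSV]
    exact prod_le_one (fun p hp => (hb p hp).1.le) fun p hp => (hb p hp).2
  refine ⟨?_, hup, hup.trans hone⟩
  -- the lower bound
  have hVle : Vz y ≤ Vz y / Vz w := by
    rw [le_div_iff₀ (Vz_pos' w)]
    refine mul_le_of_le_one_right (Vz_pos' y).le ?_
    unfold Vz
    exact prod_le_one (fun p hp => (B5.fac_bd hp).1.le) fun p hp => (B5.fac_bd hp).2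
  set f : ℕ → ℝ := fun p => m / (((p : ℝ) - m) * ((p : ℝ) - 1)) with hf
  have hf0 : ∀ p ∈ S, 0 ≤ f p := by
    intro p hp
    have h1 := hSp p hp
    exact div_nonneg hm0 (mul_nonneg (by linarith) (by linarith))
  have hfle : ∀ p ∈ S, f p ≤ m * (1 / (((p : ℝ) - m - 1) * ((p : ℝ) - m))) := by
    intro p hp
    have h1 := hSp p hp
    rw [hf, mul_one_div]
    refine div_le_div_of_nonneg_left hm0 (mul_pos (by linarith) (by linarith)) ?_
    nlinarith
  have hsum : ∑ p ∈ S, f p ≤ 1 / 2 := by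
    have h1 : ∑ p ∈ S, f p ≤ ∑ n ∈ Ioc w y, m * (1 / (((n : ℝ) - m - 1) * ((n : ℝ) - m))) := by
      refine (sum_le_sum hfle).trans ?_
      refine sum_le_sum_of_subset_of_nonneg ?_ ?_
      · intro p hp
        rw [hS, mem_filter, mem_pz] at hp
        exact mem_Ioc.2 ⟨hp.2, hp.1.1⟩
      · intro n hn _
        have h2 : (w : ℝ) + 1 ≤ n := by exact_mod_cast (mem_Ioc.1 hn).1
        have h3 : 0 < ((n : ℝ) - m - 1) * ((n : ℝ) - m) := mul_pos (by linarith) (by linarith)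
        positivity
    rw [← mul_sum, B5.tel m w y (by omega) hwy] at h1
    have h2 : (w : ℝ) ≤ y := by exact_mod_cast hwy
    have h3 : 0 ≤ 1 / ((y : ℝ) - m) := by
      have : (0 : ℝ) < y - m := by linarith
      positivity
    have h4 : (m : ℝ) * (1 / ((w : ℝ) - m)) ≤ 1 / 2 := by
      rw [mul_one_div, div_le_div_iff₀ (by linarith) (by norm_num)]
      linarith
    have h5 : (m : ℝ) * (1 / ((w : ℝ) - m) - 1 / ((y : ℝ) - m)) ≤ m * (1 / ((w : ℝ) - m)) :=
      mul_le_mul_of_nonneg_left (by linarith) hm0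
    linarith
  have hf1 : ∀ p ∈ S, f p ≤ 1 := by
    intro p hp
    have h1 : f p ≤ ∑ q ∈ S, f q := single_le_sum hf0 hp
    linarith
  have hprod : (1 : ℝ) / 2 ≤ ∏ p ∈ S, (1 - f p) := by
    have := one_sub_sum_le_prod S f hf0 hf1
    linarith
  have he : GB m w y = (∏ p ∈ S, (1 - f p)) * ∏ p ∈ S, (1 - 1 / (p : ℝ)) := by
    unfold GB
    rw [← prod_mul_distrib]
    refine prod_congr rfl fun p hp => ?_
    have h1 := hSp p hp
    have h2 : (p : ℝ) - m ≠ 0 := by
      have : (0 : ℝ) < p - m := by linarith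
      exact this.ne'
    have h3 : (p : ℝ) - 1 ≠ 0 := by
      have : (0 : ℝ) < p - 1 := by linarith
      exact this.ne'
    have h4 : (p : ℝ) ≠ 0 := by
      have : (0 : ℝ) < p := by linarith
      exact this.ne'
    rw [hf]
    field_simp
    ring
  rw [he, hSV]
  exact mul_le_mul hprod hVle (Vz_pos' y).le (le_trans (by norm_num) hprod)

/-- **B5'** (25 min) the primes `> T0.sup id` have `fT T0 p = #T0`; `Vz y` is the product of the `1 - 1/p` -/
theorem VT_bd (T0 : Finset ℕ) (hadm : ∀ p : ℕ, p.Prime → fT T0 p < p) : ∃ c C : ℝ, 0 < c ∧ 0 < C ∧ ∀ y : ℕ,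
    c * Vz y ^ T0.card ≤ VT y T0 ∧ VT y T0 ≤ C * Vz y ^ T0.card := by
  have hA : Adm T0 := fun p hp => by
    rw [← fT_eq T0 hp.pos]
    exact hadm p hp
  -- the upper bound
  obtain ⟨P0, hP0⟩ : ∃ P0 : ℕ, P0 = T0.sup id := ⟨_, rfl⟩
  have hbig : ∀ p : ℕ, P0 < p → nuT T0 p = T0.card := by
    intro p hp
    unfold nuT
    refine card_image_of_injOn ?_
    intro a ha b hb hab
    have ha' : a ≤ P0 := by
      rw [hP0]
      exact le_sup (f := id) ha
    have hb' : b ≤ P0 := by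
      rw [hP0]
      exact le_sup (f := id) hb
    have h1 : a % p = a := Nat.mod_eq_of_lt (lt_of_le_of_lt ha' hp)
    have h2 : b % p = b := Nat.mod_eq_of_lt (lt_of_le_of_lt hb' hp)
    have h3 : a % p = b % p := hab
    rwa [h1, h2] at h3
  have hup : ∀ y, PT T0 y ≤ Real.exp (2 * T0.card * P0) := by
    intro y
    have h1 : ∀ p ∈ pz y, locT T0 p ≤ Real.exp (if p ≤ P0 then 2 * (T0.card : ℝ) else 0) := by
      intro p hp
      have hp2 := (mem_pz.1 hp).2.two_le
      split_ifs with h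
      · refine (locT_le_exp T0 hp2).trans (Real.exp_le_exp.2 ?_)
        refine div_le_self (by positivity) ?_
        exact_mod_cast (by omega : 1 ≤ p)
      · rw [Real.exp_zero]
        exact locT_le_one T0 hp2 (hbig p (not_le.1 h))
    calc PT T0 y ≤ ∏ p ∈ pz y, Real.exp (if p ≤ P0 then 2 * (T0.card : ℝ) else 0) :=
          prod_le_prod (fun p hp => locT_nonneg' T0 (mem_pz.1 hp).2.two_le) h1
      _ = Real.exp (∑ p ∈ pz y, if p ≤ P0 then 2 * (T0.card : ℝ) else 0) := by rw [Real.exp_sum]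
      _ ≤ _ := by
          rw [Real.exp_le_exp, ← sum_filter, sum_const, nsmul_eq_mul]
          have h2 : ((pz y).filter (fun p => p ≤ P0)).card ≤ P0 := by
            calc ((pz y).filter (fun p => p ≤ P0)).card ≤ (Icc 1 P0).card := by
                  refine card_le_card fun p hp => ?_
                  rw [mem_filter, mem_pz] at hp
                  exact mem_Icc.2 ⟨hp.1.2.one_lt.le, hp.2⟩
              _ = P0 := by simp
          have h3 : (((pz y).filter (fun p => p ≤ P0)).card : ℝ) ≤ P0 := by exact_mod_cast h2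
          calc _ ≤ (P0 : ℝ) * (2 * T0.card) := mul_le_mul_of_nonneg_right h3 (by positivity)
            _ = _ := by ring
  -- the lower bound
  obtain ⟨c, hc, hlow⟩ : ∃ c : ℝ, 0 < c ∧ ∀ y, c ≤ PT T0 y := by
    rcases Nat.eq_zero_or_pos T0.card with h0 | h0
    · refine ⟨1, one_pos, fun y => ?_⟩
      have hT : T0 = ∅ := card_eq_zero.1 h0
      unfold PT
      refine le_of_eq ?_
      symm
      refine prod_eq_one fun p _ => ?_
      rw [hT]
      unfold locT nuT
      simp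
    · obtain ⟨c, hc, h⟩ := PT_low (T0.card - 1)
      exact ⟨c, hc, (h T0 (by omega) hA).1⟩
  refine ⟨c, Real.exp (2 * T0.card * P0), hc, Real.exp_pos _, fun y => ?_⟩
  rw [VT_eq]
  have hV : 0 ≤ Vz y ^ T0.card := pow_nonneg (Vz_pos' y).le _
  exact ⟨mul_le_mul_of_nonneg_right (hlow y) hV, mul_le_mul_of_nonneg_right (hup y) hV⟩

end Pool.Agent.J4.H45.BP
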